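import Pool.Agent.K1H69.MZ.Stm

set_option autoImplicit false
set_option linter.unusedSectionVars false

/-! Good reduction of an automorphism of a projective variety outside finitely many primes. -/

namespace Pool.Agent.K1H45.MZ

open MvPolynomial Pool.Agent.H936R2 Pool.Agent.R847.Gap Pool.Agent.K1H69.MZ

/-! ### Nullstellensatz by primes -/

section null

variable {K : Type} [Field K] {n : ℕ}

lemma null {S : Set (MvPolynomial (Fin (n + 1)) K)} {m : ℕ}
    {f : Fin m → Fin (n + 1) → MvPolynomial (Fin (n + 1)) K}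
    (H : ∀ (F : Type) [Field F] (τ : K →+* F) (z : Fin (n + 1) → F), z ≠ 0 →
      (∀ s ∈ S, eval₂ τ z s = 0) → ∃ a, Val τ (f a) z ≠ 0) (j : Fin (n + 1)) :
    ∃ (M : ℕ) (h : Fin m × Fin (n + 1) → MvPolynomial (Fin (n + 1)) K)
      (r : MvPolynomial (Fin (n + 1)) K), r ∈ Ideal.span S ∧
      X j ^ M = r + ∑ x : Fin m × Fin (n + 1), h x * f x.1 x.2 := by
  classical
  set I : Ideal (MvPolynomial (Fin (n + 1)) K) := Ideal.span S ⊔
    Ideal.span (Set.range fun x : Fin m × Fin (n + 1) => f x.1 x.2) with hI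
  have key : (X j : MvPolynomial (Fin (n + 1)) K) ∈ I.radical := by
    rw [Ideal.radical_eq_sInf, Submodule.mem_sInf]
    rintro P ⟨hIP, hP⟩
    by_contra hj
    let R := MvPolynomial (Fin (n + 1)) K ⧸ P
    have : IsDomain R := Ideal.Quotient.isDomain P
    let F : Type := FractionRing R
    let τ : K →+* F := (algebraMap R F).comp ((Ideal.Quotient.mk P).comp C)
    let z : Fin (n + 1) → F := fun i => algebraMap R F (Ideal.Quotient.mk P (X i))
    have hev : ∀ q : MvPolynomial (Fin (n + 1)) K,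
        eval₂ τ z q = algebraMap R F (Ideal.Quotient.mk P q) := by
      intro q
      have h1 : (eval₂Hom τ z) = (algebraMap R F).comp (Ideal.Quotient.mk P) := by
        apply MvPolynomial.ringHom_ext
        · intro r; simp [τ]
        · intro i; simp [z]
      have h2 := congrArg (fun g => g q) h1
      simpa using h2
    have hzero : ∀ q ∈ P, eval₂ τ z q = 0 := by
      intro q hq
      rw [hev, (Ideal.Quotient.eq_zero_iff_mem).2 hq, map_zero]
    have hz : z ≠ 0 := by
      intro h0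
      have h1 : z j = 0 := by rw [h0]; rfl
      have h2 : Ideal.Quotient.mk P (X j) = 0 :=
        (IsFractionRing.injective R F) (by rw [map_zero]; exact h1)
      exact hj ((Ideal.Quotient.eq_zero_iff_mem).1 h2)
    obtain ⟨a, ha⟩ := H F τ z hz (fun s hs => hzero s
      (hIP ((le_sup_left : Ideal.span S ≤ I) (Ideal.subset_span hs))))
    apply ha
    funext i
    exact hzero _ (hIP ((le_sup_right : Ideal.span _ ≤ I) (Ideal.subset_span ⟨(a, i), rfl⟩)))
  obtain ⟨M, hM⟩ := key
  obtain ⟨r, hr, t, ht, hrt⟩ := Submodule.mem_sup.1 hM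
  obtain ⟨h, hh⟩ := Ideal.mem_span_range_iff_exists_fun.1 ht
  exact ⟨M, h, r, hr, by rw [hh, hrt]⟩

end null

/-! ### Denominators -/

section den

variable {L : Type} [NormedField L] [IsUltrametricDist L]

lemma norm_le_one_of_isIntegral {x : L} (hx : IsIntegral ℤ x) : ‖x‖ ≤ 1 := by
  obtain ⟨P, hP, hx⟩ := hx
  by_contra hlt
  rw [not_le] at hlt
  have hd : P.natDegree ≠ 0 := by
    intro h0
    have h1 : P = 1 := Polynomial.eq_one_of_monic_natDegree_zero hP h0
    rw [h1] at hx
    simp at hx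
  have h2 : x ^ P.natDegree = -∑ i ∈ Finset.range P.natDegree, (P.coeff i : L) * x ^ i := by
    have h3 := hx
    rw [Polynomial.eval₂_eq_sum_range, Finset.sum_range_succ, hP.coeff_natDegree, map_one,
      one_mul] at h3
    rw [eq_neg_iff_add_eq_zero, add_comm]
    simpa using h3
  have h4 : ‖x ^ P.natDegree‖ ≤ ‖x‖ ^ (P.natDegree - 1) := by
    rw [h2, norm_neg]
    refine IsUltrametricDist.norm_sum_le_of_forall_le_of_nonneg (by positivity) fun i hi => ?_
    rw [norm_mul, norm_pow]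
    have h5 := IsUltrametricDist.norm_intCast_le_one L (P.coeff i)
    calc ‖(P.coeff i : L)‖ * ‖x‖ ^ i ≤ 1 * ‖x‖ ^ i :=
          mul_le_mul_of_nonneg_right h5 (by positivity)
      _ = ‖x‖ ^ i := one_mul _
      _ ≤ ‖x‖ ^ (P.natDegree - 1) :=
          pow_le_pow_right₀ hlt.le (Nat.le_sub_one_of_lt (Finset.mem_range.1 hi))
  rw [norm_pow] at h4
  exact absurd h4 (not_le.2 (pow_lt_pow_right₀ hlt (Nat.sub_lt (Nat.pos_of_ne_zero hd) one_pos)))

/-- denominators of finitely many elements of a number field -/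
lemma den {K : Type} [Field K] [NumberField K] (T : Finset K) :
    ∃ N : ℕ, 0 < N ∧ ∀ (L : Type) [NormedField L] [IsUltrametricDist L] (σ : K →+* L),
      ‖(N : L)‖ = 1 → ∀ c ∈ T, ‖σ c‖ ≤ 1 := by
  obtain ⟨y, hy, h⟩ := exists_integral_multiples ℤ ℚ T
  refine ⟨y.natAbs, Int.natAbs_pos.2 hy, fun L _ _ σ hN c hc => ?_⟩
  have h1 : IsIntegral ℤ (σ (y • c)) := (h c hc).map σ.toIntAlgHom
  have h2 := norm_le_one_of_isIntegral h1
  have h3 : ‖(y : L)‖ = 1 := by
    rw [← hN]
    rcases Int.natAbs_eq y with h4 | h4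
    · conv_lhs => rw [h4]
      simp
    · conv_lhs => rw [h4]
      simp
  have h5 : σ (y • c) = (y : L) * σ c := by
    rw [zsmul_eq_mul, map_mul, map_intCast]
  rw [h5, norm_mul, h3, one_mul] at h2
  exact h2

/-- polynomials with coefficients of norm at most one come from the integers -/
lemma lift_of_coeff {ι : Type} (P : MvPolynomial ι L) (h : ∀ κ, ‖P.coeff κ‖ ≤ 1) :
    ∃ Q : MvPolynomial ι (unitBall L), map (unitBall L).subtype Q = P := by
  classical
  refine ⟨∑ κ ∈ P.support, monomial κ ⟨P.coeff κ, h κ⟩, ?_⟩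
  rw [map_sum]
  conv_rhs => rw [P.as_sum]
  refine Finset.sum_congr rfl fun κ _ => ?_
  rw [map_monomial]
  rfl

lemma den_poly {K : Type} [Field K] [NumberField K] {ι α : Type} [Finite α]
    (q : α → MvPolynomial ι K) :
    ∃ N : ℕ, 0 < N ∧ ∀ (L : Type) [NormedField L] [IsUltrametricDist L] (σ : K →+* L),
      ‖(N : L)‖ = 1 → ∀ a, ∃ Q : MvPolynomial ι (unitBall L),
        map (unitBall L).subtype Q = map σ (q a) := by
  classical
  have := Fintype.ofFinite α
  obtain ⟨N, hN, h⟩ := den (K := K)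
    (Finset.univ.biUnion fun a => (q a).support.image fun κ => (q a).coeff κ)
  refine ⟨N, hN, fun L _ _ σ hL a => lift_of_coeff _ fun κ => ?_⟩
  rw [coeff_map]
  by_cases hκ : κ ∈ (q a).support
  · exact h L σ hL _ (Finset.mem_biUnion.2 ⟨a, Finset.mem_univ _, Finset.mem_image_of_mem _ hκ⟩)
  · rw [notMem_support_iff.1 hκ, map_zero, norm_zero]
    exact zero_le_one

lemma norm_one_of_mul {a b : ℕ} (h : ‖((a * b : ℕ) : L)‖ = 1) :
    ‖(a : L)‖ = 1 ∧ ‖(b : L)‖ = 1 := by
  rw [Nat.cast_mul, norm_mul] at h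
  have ha := IsUltrametricDist.norm_natCast_le_one L a
  have hb := IsUltrametricDist.norm_natCast_le_one L b
  have ha0 := norm_nonneg (a : L)
  have hb0 := norm_nonneg (b : L)
  constructor
  · refine le_antisymm ha ?_
    rw [← h]
    exact mul_le_of_le_one_right ha0 hb
  · refine le_antisymm hb ?_
    rw [← h]
    exact mul_le_of_le_one_left hb0 ha

end den

/-! ### Points over the integers of `L` -/

section pts

variable {K : Type} [Field K] {L : Type} [NormedField L] [IsUltrametricDist L] {ι : Type}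

/-- the point over `L` -/
def co (z : ι → unitBall L) : ι → L := fun i => (z i : L)

lemma co_ne_zero {z : ι → unitBall L} (hz : Prim z) : co z ≠ 0 := by
  obtain ⟨i, hi⟩ := hz
  intro h
  have h1 : (z i : L) = 0 := congrFun h i
  rw [nm, h1, norm_zero] at hi
  exact zero_ne_one hi

lemma coe_eval {σ : K →+* L} {f : MvPolynomial ι K} {Q : MvPolynomial ι (unitBall L)}
    (h : map (unitBall L).subtype Q = map σ f) (z : ι → unitBall L) :
    ((eval z Q : unitBall L) : L) = eval₂ σ (co z) f := by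
  have h1 : ((eval z Q : unitBall L) : L) = eval (co z) (map (unitBall L).subtype Q) := by
    rw [eval_map]
    have h := eval₂_comp_left (unitBall L).subtype (RingHom.id _) z Q
    rw [RingHom.comp_id] at h
    exact h
  rw [h1, h, eval_map]

lemma coe_pt {σ : K →+* L} {f : ι → MvPolynomial ι K} {F : ι → MvPolynomial ι (unitBall L)}
    (h : ∀ i, map (unitBall L).subtype (F i) = map σ (f i)) (z : ι → unitBall L) :
    co (pt F z) = Val σ f (co z) := by
  funext i
  exact coe_eval (h i) z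

lemma mem_ZS [CharZero L] (p : ℕ) [Fact p.Prime] (hp : ‖(p : L)‖ < 1) {σ : K →+* L}
    {S : Set (MvPolynomial ι K)} {z : ι → unitBall L} :
    z ∈ ZS (QS σ S) ↔ ∀ s ∈ S, eval₂ σ (co z) s = 0 := by
  constructor
  · intro h s hs
    obtain ⟨c, Q, hc, hQ⟩ := exists_scale p hp (map σ s)
    have h1 : eval z Q = 0 := h Q ⟨c, s, hs, hQ⟩
    have h2 : ((eval z Q : unitBall L) : L) = eval (co z) (map (unitBall L).subtype Q) := by
      rw [eval_map]
      have h := eval₂_comp_left (unitBall L).subtype (RingHom.id _) z Q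
      rw [RingHom.comp_id] at h
      exact h
    rw [h1, hQ, map_mul, eval_C, eval_map] at h2
    have h3 : (0 : L) = c * eval₂ σ (co z) s := h2
    exact (mul_eq_zero.1 h3.symm).resolve_left hc
  · rintro h Q ⟨c, s, hs, hQ⟩
    have h2 : ((eval z Q : unitBall L) : L) = eval (co z) (map (unitBall L).subtype Q) := by
      rw [eval_map]
      have h := eval₂_comp_left (unitBall L).subtype (RingHom.id _) z Q
      rw [RingHom.comp_id] at h
      exact h
    rw [hQ, map_mul, eval_map, h s hs, mul_zero] at h2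
    exact Subtype.ext h2

lemma cl_of_smul {z w : ι → unitBall L} {c : L} (h : co w = c • co z) : Cl 0 z w := by
  intro i j
  have hi : (w i : L) = c * (z i : L) := congrFun h i
  have hj : (w j : L) = c * (z j : L) := congrFun h j
  unfold nm
  push_cast
  rw [hi, hj, show (z i : L) * (c * (z j : L)) - (z j : L) * (c * (z i : L)) = 0 by ring, norm_zero]

lemma eval₂_smul_hom {F : Type} [Field F] {τ : K →+* F} {f : MvPolynomial ι K} {d : ℕ}
    (hf : f.IsHomogeneous d) (c : F) (z : ι → F) :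
    eval₂ τ (c • z) f = c ^ d * eval₂ τ z f := by
  have h := eval_hom (hf.map τ) c z
  rw [eval_map, eval_map] at h
  exact h

lemma Val_smul_hom {F : Type} [Field F] {τ : K →+* F} {f : ι → MvPolynomial ι K} {d : ℕ}
    (hf : ∀ i, (f i).IsHomogeneous d) (c : F) (z : ι → F) :
    Val τ f (c • z) = c ^ d • Val τ f z := by
  funext i
  exact eval₂_smul_hom (hf i) c z

/-- one half of good reduction: some tuple is primitive -/
lemma prim_ex {n m : ℕ} {σ : K →+* L} {S : Set (MvPolynomial (Fin (n + 1)) K)}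
    {f : Fin m → Fin (n + 1) → MvPolynomial (Fin (n + 1)) K}
    {F : Fin m → Fin (n + 1) → MvPolynomial (Fin (n + 1)) (unitBall L)}
    (hF : ∀ a i, map (unitBall L).subtype (F a i) = map σ (f a i))
    {M : Fin (n + 1) → ℕ} {h : Fin (n + 1) → Fin m × Fin (n + 1) → MvPolynomial (Fin (n + 1)) K}
    {H : Fin (n + 1) → Fin m × Fin (n + 1) → MvPolynomial (Fin (n + 1)) (unitBall L)}
    (hH : ∀ j x, map (unitBall L).subtype (H j x) = map σ (h j x))
    {r : Fin (n + 1) → MvPolynomial (Fin (n + 1)) K} (hr : ∀ j, r j ∈ Ideal.span S)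
    (he : ∀ j, X j ^ M j = r j + ∑ x : Fin m × Fin (n + 1), h j x * f x.1 x.2)
    {z : Fin (n + 1) → unitBall L} (hz : ∀ s ∈ S, eval₂ σ (co z) s = 0) (hzp : Prim z) :
    ∃ a, Prim (pt (F a) z) := by
  obtain ⟨j, hj⟩ := hzp
  by_contra hcon
  push Not at hcon
  have hlt : ∀ a i, nm (pt (F a) z i) < 1 := fun a i =>
    lt_of_le_of_ne (nm_le_one _) fun h1 => hcon a ⟨i, h1⟩
  have hr0 : eval₂ σ (co z) (r j) = 0 := by
    have h1 : Ideal.span S ≤ RingHom.ker (eval₂Hom σ (co z)) := by
      rw [Ideal.span_le]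
      intro s hs
      exact hz s hs
    exact h1 (hr j)
  have h1 : (z j) ^ M j = ∑ x : Fin m × Fin (n + 1), eval z (H j x) * pt (F x.1) z x.2 := by
    apply Subtype.ext
    have h2 := congrArg (eval₂ σ (co z)) (he j)
    rw [eval₂_pow, eval₂_X, eval₂_add, hr0, zero_add, eval₂_sum] at h2
    push_cast
    have h3 : ((z j : unitBall L) : L) ^ M j = co z j ^ M j := rfl
    rw [h3, h2]
    refine Finset.sum_congr rfl fun x _ => ?_
    rw [eval₂_mul, ← coe_eval (hH j x) z, ← coe_eval (hF x.1 x.2) z]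
    rfl
  have h4 : nm (∑ x : Fin m × Fin (n + 1), eval z (H j x) * pt (F x.1) z x.2) < 1 := by
    refine Finset.sum_induction _ (fun y => nm y < 1) (fun a b ha hb => ?_) ?_ fun x _ => ?_
    · exact (nm_add_le (le_max_left _ _) (le_max_right _ _)).trans_lt (max_lt ha hb)
    · rw [nm_zero]; exact zero_lt_one
    · exact (nm_mul_le_right _ le_rfl).trans_lt (hlt x.1 x.2)
  rw [← h1, nm_pow, hj, one_pow] at h4
  exact lt_irrefl _ h4

end pts

/-! ### Good reduction -/

lemma hom_of_lift {L : Type} [NormedField L] [IsUltrametricDist L] {K : Type} [Field K]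
    {ι : Type} {σ : K →+* L} {f : MvPolynomial ι K} {Q : MvPolynomial ι (unitBall L)} {d : ℕ}
    (h : map (unitBall L).subtype Q = map σ f) (hf : f.IsHomogeneous d) : Q.IsHomogeneous d := by
  intro κ hκ
  have h1 : coeff κ (map σ f) ≠ 0 := by
    rw [← h, coeff_map]
    intro h0
    exact hκ (Subtype.ext h0)
  exact (hf.map σ) h1

theorem S_Red_holds : S_Red := by
  intro K _ _ n S hS φ
  choose Mf hf rf hrf hef using fun j => null (S := S) (f := φ.f)
    (fun F _ τ z hz hs => (φ.left F τ z hz hs).1) j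
  choose Mg hg rg hrg heg using fun j => null (S := S) (f := φ.g)
    (fun F _ τ z hz hs => (φ.right F τ z hz hs).1) j
  obtain ⟨N1, hN1, h1⟩ := den_poly (K := K) (fun x : Fin φ.m × Fin (n + 1) => φ.f x.1 x.2)
  obtain ⟨N2, hN2, h2⟩ := den_poly (K := K) (fun x : Fin φ.m × Fin (n + 1) => φ.g x.1 x.2)
  obtain ⟨N3, hN3, h3⟩ := den_poly (K := K)
    (fun x : Fin (n + 1) × (Fin φ.m × Fin (n + 1)) => hf x.1 x.2)
  obtain ⟨N4, hN4, h4⟩ := den_poly (K := K)
    (fun x : Fin (n + 1) × (Fin φ.m × Fin (n + 1)) => hg x.1 x.2)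
  refine ⟨(N1 * N2) * (N3 * N4), by positivity, fun L _ _ _ p _ hp σ hN => ?_⟩
  obtain ⟨hN12, hN34⟩ := norm_one_of_mul hN
  obtain ⟨hn1, hn2⟩ := norm_one_of_mul hN12
  obtain ⟨hn3, hn4⟩ := norm_one_of_mul hN34
  choose F1 hF1 using h1 L σ hn1
  choose G1 hG1 using h2 L σ hn2
  choose HF hHF using h3 L σ hn3
  choose HG hHG using h4 L σ hn4
  let F : Sys L (Fin (n + 1)) (Fin φ.m) :=
    ⟨fun a i => F1 (a, i), φ.d, fun a i => hom_of_lift (hF1 (a, i)) (φ.f_hom a i)⟩
  let G : Sys L (Fin (n + 1)) (Fin φ.m) :=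
    ⟨fun a i => G1 (a, i), φ.e, fun a i => hom_of_lift (hG1 (a, i)) (φ.g_hom a i)⟩
  have hF : Lifts σ φ.f F := fun a i => hF1 (a, i)
  have hG : Lifts σ φ.g G := fun a i => hG1 (a, i)
  have hmem : ∀ z, z ∈ ZS (QS σ S) ↔ ∀ s ∈ S, eval₂ σ (co z) s = 0 := fun z => mem_ZS p hp
  refine ⟨F, G, hF, hG, ?_, ?_, ?_, ?_, ?_, ?_⟩
  · intro z hz hzp
    exact prim_ex hF (fun j x => hHF (j, x)) hrf hef ((hmem z).1 hz) hzp
  · intro z hz hzp a ha
    rw [hmem, coe_pt (hF a) z]
    refine ((φ.left L σ (co z) (co_ne_zero hzp) ((hmem z).1 hz)).2 a ?_).1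
    rw [← coe_pt (hF a) z]
    exact co_ne_zero ha
  · intro z hz hzp a a' ha ha'
    have hl := φ.left L σ (co z) (co_ne_zero hzp) ((hmem z).1 hz)
    have hw : Val σ (φ.f a) (co z) ≠ 0 := by
      rw [← coe_pt (hF a) z]; exact co_ne_zero ha
    have hw' : Val σ (φ.f a') (co z) ≠ 0 := by
      rw [← coe_pt (hF a') z]; exact co_ne_zero ha'
    obtain ⟨hwS, hb⟩ := hl.2 a hw
    have hr := φ.right L σ (Val σ (φ.f a) (co z)) hw hwS
    obtain ⟨b, hgb⟩ := hr.1
    obtain ⟨c, hc⟩ := hb b hgb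
    have hc0 : c ≠ 0 := by
      rintro rfl
      rw [zero_smul] at hc
      exact hgb hc
    have h5 : Val σ (φ.f a') (Val σ (φ.g b) (Val σ (φ.f a) (co z))) =
        c ^ φ.d a' • Val σ (φ.f a') (co z) := by
      rw [hc, Val_smul_hom (φ.f_hom a')]
    obtain ⟨c', hc'⟩ := (hr.2 b hgb).2 a' (by
      rw [h5]
      exact smul_ne_zero (pow_ne_zero _ hc0) hw')
    rw [h5] at hc'
    refine cl_of_smul (c := (c ^ φ.d a')⁻¹ * c') ?_
    rw [coe_pt (hF a) z, coe_pt (hF a') z, mul_smul, ← hc', smul_smul,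
      inv_mul_cancel₀ (pow_ne_zero _ hc0), one_smul]
  · intro z hz hzp
    exact prim_ex hG (fun j x => hHG (j, x)) hrg heg ((hmem z).1 hz) hzp
  · intro z hz hzp a b ha hb
    have hl := φ.left L σ (co z) (co_ne_zero hzp) ((hmem z).1 hz)
    have hw : Val σ (φ.f a) (co z) ≠ 0 := by
      rw [← coe_pt (hF a) z]; exact co_ne_zero ha
    have hv : co (pt (G.f b) (pt (F.f a) z)) = Val σ (φ.g b) (Val σ (φ.f a) (co z)) := by
      rw [coe_pt (hG b), coe_pt (hF a)]
    obtain ⟨c, hc⟩ := (hl.2 a hw).2 b (by rw [← hv]; exact co_ne_zero hb)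
    exact cl_of_smul (c := c) (by rw [hv, hc])
  · intro z hz c hc
    rw [hmem] at hz ⊢
    intro s hs
    obtain ⟨d, hd⟩ := hS s hs
    have e : co (fun i => c * z i) = (c : L) • co z := by
      funext i
      simp [co]
    rw [e, eval₂_smul_hom hd, hz s hs, mul_zero]

end Pool.Agent.K1H45.MZ
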